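import Mathlib

/-!
# MP_6859a2_co: `f(k) = 3k - 1` for every `k ≥ 1`
-/

set_option autoImplicit false

namespace Pool.Agent.Results.MP_6859a2_co.ExactValue

open SimpleGraph Finset

/-- `G` has no induced `K_{1,3}`: among three distinct neighbours of a vertex two are adjacent. -/
def ClawFree {V : Type} (G : SimpleGraph V) : Prop :=
  ∀ v a b c : V, G.Adj v a → G.Adj v b → G.Adj v c → a ≠ b → a ≠ c → b ≠ c →
    G.Adj a b ∨ G.Adj a c ∨ G.Adj b c

/-- `c`-connected: more than `c` vertices, and deleting fewer than `c` vertices leaves a connected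
graph. -/
def KConnected {V : Type} [Fintype V] (c : ℕ) (G : SimpleGraph V) : Prop :=
  c < Fintype.card V ∧ ∀ W : Finset V, W.card < c → (G.induce {v | v ∉ W}).Connected

/-- The vertices `v 0, ..., v (k - 1)` are separated by `k` disjoint cycles. -/
def Separated {V : Type} {k : ℕ} (G : SimpleGraph V) (v : Fin k → V) : Prop :=
  ∃ C : ∀ i, G.Walk (v i) (v i), (∀ i, (C i).IsCycle) ∧
    ∀ i j, i ≠ j → ∀ x, x ∈ (C i).support → x ∉ (C j).support

lemma exists_cycle {V : Type} {G : SimpleGraph V} {v a b : V} (hab : a ≠ b) (ha : G.Adj v a)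
    (hb : G.Adj v b) (p : G.Walk a b) (hp : p.IsPath) (hv : v ∉ p.support) :
    ∃ C : G.Walk v v, C.IsCycle ∧ ∀ x, x ∈ C.support → x = v ∨ x ∈ p.support := by
  refine ⟨Walk.cons ha (p.concat hb.symm), ?_, ?_⟩
  · rw [Walk.cons_isCycle_iff]
    constructor
    · exact Walk.IsPath.concat hp hv hb.symm
    · intro h
      rw [Walk.edges_concat, List.concat_eq_append, List.mem_append, List.mem_singleton] at h
      rcases h with h | h
      · exact hv (p.fst_mem_support_of_mem_edges h)
      · rw [Sym2.eq_iff] at h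
        rcases h with ⟨h1, -⟩ | ⟨-, h2⟩
        · exact hb.ne h1
        · exact hab h2
  · intro x hx
    rw [Walk.support_cons, List.mem_cons, Walk.support_concat, List.mem_append,
      List.mem_singleton] at hx
    rcases hx with h | h | h
    · exact Or.inl h
    · exact Or.inr h
    · exact Or.inl h

section

variable {V : Type} [Fintype V] {G : SimpleGraph V} {k : ℕ}

open Classical in
lemma degree_ge {c : ℕ} (hG : KConnected c G) (v : V) :
    c ≤ (Finset.univ.filter fun w => G.Adj v w).card := by
  by_contra hcon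
  push Not at hcon
  set N := Finset.univ.filter fun w => G.Adj v w with hN
  have hvN : v ∉ N := by
    rw [hN, Finset.mem_filter]
    exact fun h => G.loopless.irrefl v h.2
  obtain ⟨z, hz⟩ : ∃ z, z ∉ insert v N := by
    by_contra hall
    push Not at hall
    have h1 : (Finset.univ : Finset V) ⊆ insert v N := fun z _ => hall z
    have h2 := Finset.card_le_card h1
    rw [Finset.card_univ, Finset.card_insert_of_notMem hvN] at h2
    have := hG.1
    omega
  rw [Finset.mem_insert, not_or] at hz
  have hconn := hG.2 N hcon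
  obtain ⟨w⟩ := hconn.preconnected ⟨v, hvN⟩ ⟨z, hz.2⟩
  cases w with
  | nil => exact hz.1 rfl
  | cons hadj _ =>
    rename_i u _
    have hu : G.Adj v u.1 := hadj
    have hm : ∀ w, G.Adj v w → w ∈ N := fun w hw => by
      rw [hN, Finset.mem_filter]
      exact ⟨Finset.mem_univ _, hw⟩
    exact u.2 (hm _ hu)

open Classical in
/-- the number of neighbours of `v j` outside the prescribed vertices and a set `U` -/
lemma avail (hk : 1 ≤ k) (hG : KConnected (3 * k - 1) G) (v : Fin k → V)
    (hv : Function.Injective v) (j : Fin k) (U : Finset V) :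
    2 * k - U.card ≤
      (Finset.univ.filter fun w => G.Adj (v j) w ∧ w ∉ Finset.univ.image v ∧ w ∉ U).card := by
  have h1 := degree_ge hG (v j)
  have h2 : (Finset.univ.filter fun w => G.Adj (v j) w) ⊆
      (Finset.univ.filter fun w => G.Adj (v j) w ∧ w ∉ Finset.univ.image v ∧ w ∉ U) ∪
        (((Finset.univ : Finset (Fin k)).erase j).image v ∪ U) := by
    intro w hw
    rw [Finset.mem_filter] at hw
    rw [Finset.mem_union, Finset.mem_union, Finset.mem_filter]
    by_cases hwU : w ∈ U
    · exact Or.inr (Or.inr hwU)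
    · by_cases hwv : w ∈ Finset.univ.image v
      · right
        left
        rw [Finset.mem_image] at hwv ⊢
        obtain ⟨i, -, rfl⟩ := hwv
        refine ⟨i, ?_, rfl⟩
        rw [Finset.mem_erase]
        refine ⟨?_, Finset.mem_univ _⟩
        rintro rfl
        exact G.loopless.irrefl _ hw.2
      · exact Or.inl ⟨Finset.mem_univ _, hw.2, hwv, hwU⟩
  have h3 := Finset.card_le_card h2
  have h4 := Finset.card_union_le
    (Finset.univ.filter fun w => G.Adj (v j) w ∧ w ∉ Finset.univ.image v ∧ w ∉ U)
    (((Finset.univ : Finset (Fin k)).erase j).image v ∪ U)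
  have h5 := Finset.card_union_le (((Finset.univ : Finset (Fin k)).erase j).image v) U
  have h6 : (((Finset.univ : Finset (Fin k)).erase j).image v).card = k - 1 := by
    rw [Finset.card_image_of_injective _ hv, Finset.card_erase_of_mem (Finset.mem_univ _)]
    simp
  omega

open Classical in
/-- greedy choice of disjoint triangles for at most `k - 1` of the vertices -/
lemma greedy (hk : 1 ≤ k) (hG : KConnected (3 * k - 1) G) (hcf : ClawFree G) (v : Fin k → V)
    (hv : Function.Injective v) (I : Finset (Fin k)) (hI : I.card ≤ k - 1) :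
    ∃ x y : Fin k → V,
      (∀ i ∈ I, G.Adj (v i) (x i) ∧ G.Adj (v i) (y i) ∧ G.Adj (x i) (y i) ∧
        x i ∉ Finset.univ.image v ∧ y i ∉ Finset.univ.image v) ∧
      (∀ i ∈ I, ∀ j ∈ I, i ≠ j → x i ≠ x j ∧ x i ≠ y j ∧ y i ≠ x j ∧ y i ≠ y j) := by
  induction I using Finset.induction_on with
  | empty => exact ⟨v, v, by simp, by simp⟩
  | insert j I hj ih =>
    rw [Finset.card_insert_of_notMem hj] at hI
    obtain ⟨x, y, h1, h2⟩ := ih (by omega)
    set U : Finset V := I.image x ∪ I.image y with hU
    have hUc : U.card ≤ 2 * I.card := by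
      have h3 : U.card ≤ (I.image x).card + (I.image y).card := Finset.card_union_le _ _
      have h4 : (I.image x).card ≤ I.card := Finset.card_image_le
      have h5 : (I.image y).card ≤ I.card := Finset.card_image_le
      omega
    have h6 := avail hk hG v hv j U
    have h7 : 2 < (Finset.univ.filter fun w =>
        G.Adj (v j) w ∧ w ∉ Finset.univ.image v ∧ w ∉ U).card := by omega
    obtain ⟨a, b, c, ha, hb, hc, hab, hac, hbc⟩ := Finset.two_lt_card_iff.1 h7
    rw [Finset.mem_filter] at ha hb hc
    have key : ∃ p q, G.Adj (v j) p ∧ G.Adj (v j) q ∧ G.Adj p q ∧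
        (p ∉ Finset.univ.image v ∧ p ∉ U) ∧ (q ∉ Finset.univ.image v ∧ q ∉ U) := by
      rcases hcf (v j) a b c ha.2.1 hb.2.1 hc.2.1 hab hac hbc with h | h | h
      · exact ⟨a, b, ha.2.1, hb.2.1, h, ha.2.2, hb.2.2⟩
      · exact ⟨a, c, ha.2.1, hc.2.1, h, ha.2.2, hc.2.2⟩
      · exact ⟨b, c, hb.2.1, hc.2.1, h, hb.2.2, hc.2.2⟩
    obtain ⟨p, q, hp, hq, hpq, ⟨hpv, hpU⟩, ⟨hqv, hqU⟩⟩ := key
    have hxU : ∀ i ∈ I, x i ∈ U := fun i hi =>
      Finset.mem_union_left _ (Finset.mem_image_of_mem _ hi)
    have hyU : ∀ i ∈ I, y i ∈ U := fun i hi =>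
      Finset.mem_union_right _ (Finset.mem_image_of_mem _ hi)
    have hne : ∀ i ∈ I, i ≠ j := fun i hi h => hj (h ▸ hi)
    refine ⟨Function.update x j p, Function.update y j q, ?_, ?_⟩
    · intro i hi
      rw [Finset.mem_insert] at hi
      rcases hi with rfl | hi
      · simp only [Function.update_self]
        exact ⟨hp, hq, hpq, hpv, hqv⟩
      · rw [Function.update_of_ne (hne i hi), Function.update_of_ne (hne i hi)]
        exact h1 i hi
    · intro i hi i' hi' hii
      rw [Finset.mem_insert] at hi hi'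
      rcases hi with rfl | hi <;> rcases hi' with rfl | hi'
      · exact absurd rfl hii
      · rw [Function.update_self, Function.update_self, Function.update_of_ne (hne i' hi'),
          Function.update_of_ne (hne i' hi')]
        exact ⟨fun h => hpU (h ▸ hxU i' hi'), fun h => hpU (h ▸ hyU i' hi'),
          fun h => hqU (h ▸ hxU i' hi'), fun h => hqU (h ▸ hyU i' hi')⟩
      · rw [Function.update_self, Function.update_self, Function.update_of_ne (hne i hi),
          Function.update_of_ne (hne i hi)]
        exact ⟨fun h => hpU (h ▸ hxU i hi), fun h => hqU (h ▸ hxU i hi),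
          fun h => hpU (h ▸ hyU i hi), fun h => hqU (h ▸ hyU i hi)⟩
      · rw [Function.update_of_ne (hne i hi), Function.update_of_ne (hne i hi),
          Function.update_of_ne (hne i' hi'), Function.update_of_ne (hne i' hi')]
        exact h2 i hi i' hi' hii

open Classical in
theorem separated (hk : 1 ≤ k) (hG : KConnected (3 * k - 1) G) (hcf : ClawFree G) (v : Fin k → V)
    (hv : Function.Injective v) : Separated G v := by
  set l : Fin k := ⟨k - 1, by omega⟩ with hl
  set I : Finset (Fin k) := Finset.univ.erase l with hI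
  have hIc : I.card = k - 1 := by
    rw [hI, Finset.card_erase_of_mem (Finset.mem_univ _)]
    simp
  obtain ⟨x, y, h1, h2⟩ := greedy hk hG hcf v hv I (le_of_eq hIc)
  set U : Finset V := I.image x ∪ I.image y with hU
  have hUc : U.card ≤ 2 * (k - 1) := by
    have h3 : U.card ≤ (I.image x).card + (I.image y).card := Finset.card_union_le _ _
    have h4 : (I.image x).card ≤ I.card := Finset.card_image_le
    have h5 : (I.image y).card ≤ I.card := Finset.card_image_le
    omega
  have h6 := avail hk hG v hv l U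
  have h7 : 1 < (Finset.univ.filter fun w =>
      G.Adj (v l) w ∧ w ∉ Finset.univ.image v ∧ w ∉ U).card := by omega
  obtain ⟨a, ha, b, hb, hab⟩ := Finset.one_lt_card.1 h7
  rw [Finset.mem_filter] at ha hb
  set S : Finset V := Finset.univ.image v ∪ U with hS
  have hSc : S.card < 3 * k - 1 := by
    have h3 : S.card ≤ (Finset.univ.image v).card + U.card := Finset.card_union_le _ _
    have h4 : (Finset.univ.image v).card = k := by
      rw [Finset.card_image_of_injective _ hv]
      simp
    omega
  have haS : a ∉ S := by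
    rw [hS, Finset.mem_union, not_or]
    exact ha.2.2
  have hbS : b ∉ S := by
    rw [hS, Finset.mem_union, not_or]
    exact hb.2.2
  obtain ⟨p0, hp0⟩ := (hG.2 S hSc).exists_isPath ⟨a, haS⟩ ⟨b, hbS⟩
  have hinj : Function.Injective (Embedding.induce {z | z ∉ S} : G.induce {z | z ∉ S} ↪g G) :=
    (Embedding.induce (G := G) {z | z ∉ S}).injective
  -- the path in `G`
  obtain ⟨p, hp, hpS⟩ : ∃ p : G.Walk a b, p.IsPath ∧ ∀ z ∈ p.support, z ∉ S := by
    refine ⟨p0.map (Embedding.induce {z | z ∉ S}).toHom, ?_, ?_⟩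
    · exact Walk.IsPath.map hinj hp0
    · intro z hz
      have hz2 : z ∈ (p0.map (Embedding.induce (G := G) {z | z ∉ S}).toHom).support := hz
      rw [Walk.support_map, List.mem_map] at hz2
      obtain ⟨z', -, rfl⟩ := hz2
      exact z'.2
  have hvS : ∀ i, v i ∈ S := fun i =>
    Finset.mem_union_left _ (Finset.mem_image_of_mem _ (Finset.mem_univ _))
  have hxS : ∀ i ∈ I, x i ∈ S := fun i hi =>
    Finset.mem_union_right _ (Finset.mem_union_left _ (Finset.mem_image_of_mem _ hi))
  have hyS : ∀ i ∈ I, y i ∈ S := fun i hi =>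
    Finset.mem_union_right _ (Finset.mem_union_right _ (Finset.mem_image_of_mem _ hi))
  have hlast := exists_cycle hab ha.2.1 hb.2.1 p hp (fun h => hpS _ h (hvS l))
  have htri : ∀ i ∈ I, ∃ C : G.Walk (v i) (v i), C.IsCycle ∧
      ∀ z, z ∈ C.support → z = v i ∨ z = x i ∨ z = y i := by
    intro i hi
    obtain ⟨e1, e2, e3, e4, e5⟩ := h1 i hi
    have hpath : (Walk.cons e3 Walk.nil : G.Walk (x i) (y i)).IsPath := by
      rw [Walk.cons_isPath_iff]
      refine ⟨Walk.IsPath.nil, ?_⟩
      rw [Walk.support_nil, List.mem_singleton]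
      exact e3.ne
    obtain ⟨C, hC, hC'⟩ := exists_cycle e3.ne e1 e2 (Walk.cons e3 Walk.nil) hpath (by
      rw [Walk.support_cons, Walk.support_nil, List.mem_cons, List.mem_singleton, not_or]
      exact ⟨e1.ne, e2.ne⟩)
    refine ⟨C, hC, fun z hz => ?_⟩
    rcases hC' z hz with h | h
    · exact Or.inl h
    · rw [Walk.support_cons, Walk.support_nil, List.mem_cons, List.mem_singleton] at h
      exact Or.inr h
  have hall : ∀ i, ∃ C : G.Walk (v i) (v i), C.IsCycle ∧
      ∀ z, z ∈ C.support → z = v i ∨ (i ∈ I ∧ (z = x i ∨ z = y i)) ∨ (i ∉ I ∧ z ∉ S) := by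
    intro i
    by_cases hi : i ∈ I
    · obtain ⟨C, hC, hC'⟩ := htri i hi
      exact ⟨C, hC, fun z hz => (hC' z hz).elim Or.inl (fun h => Or.inr (Or.inl ⟨hi, h⟩))⟩
    · have hil : i = l := by
        by_contra hne
        exact hi (by rw [hI, Finset.mem_erase]; exact ⟨hne, Finset.mem_univ _⟩)
      subst hil
      obtain ⟨C, hC, hC'⟩ := hlast
      exact ⟨C, hC, fun z hz => (hC' z hz).elim Or.inl
        (fun h => Or.inr (Or.inr ⟨hi, hpS z h⟩))⟩
  choose C hC hC' using hall
  refine ⟨C, hC, ?_⟩
  intro i j hij z hzi hzj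
  have hxv : ∀ i ∈ I, ∀ j, x i ≠ v j := fun i hi j h =>
    (h1 i hi).2.2.2.1 (h ▸ Finset.mem_image_of_mem _ (Finset.mem_univ _))
  have hyv : ∀ i ∈ I, ∀ j, y i ≠ v j := fun i hi j h =>
    (h1 i hi).2.2.2.2 (h ▸ Finset.mem_image_of_mem _ (Finset.mem_univ _))
  rcases hC' i z hzi with h | ⟨hi, h | h⟩ | ⟨hi, h⟩ <;>
    rcases hC' j z hzj with h' | ⟨hj, h' | h'⟩ | ⟨hj, h'⟩
  · exact hij (hv (h.symm.trans h'))
  · exact hxv j hj i (h'.symm.trans h)
  · exact hyv j hj i (h'.symm.trans h)
  · exact h' (h ▸ hvS i)
  · exact hxv i hi j (h.symm.trans h')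
  · exact (h2 i hi j hj hij).1 (h.symm.trans h')
  · exact (h2 i hi j hj hij).2.1 (h.symm.trans h')
  · exact h' (h ▸ hxS i hi)
  · exact hyv i hi j (h.symm.trans h')
  · exact (h2 i hi j hj hij).2.2.1 (h.symm.trans h')
  · exact (h2 i hi j hj hij).2.2.2 (h.symm.trans h')
  · exact h' (h ▸ hyS i hi)
  · exact h (h' ▸ hvS j)
  · exact h (h' ▸ hxS j hj)
  · exact h (h' ▸ hyS j hj)
  · have h3 : i = l := by
      by_contra hne
      exact hi (by rw [hI, Finset.mem_erase]; exact ⟨hne, Finset.mem_univ _⟩)
    have h4 : j = l := by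
      by_contra hne
      exact hj (by rw [hI, Finset.mem_erase]; exact ⟨hne, Finset.mem_univ _⟩)
    exact hij (h3.trans h4.symm)

end

/-- the complete graph is `c`-connected for all `c` smaller than its order -/
lemma top_connected {n c : ℕ} (h : c < n) : KConnected c (⊤ : SimpleGraph (Fin n)) := by
  refine ⟨by simpa using h, ?_⟩
  intro W hW
  obtain ⟨z, hz⟩ : ∃ z, z ∉ W := by
    by_contra hall
    push Not at hall
    have h1 : (Finset.univ : Finset (Fin n)) ⊆ W := fun z _ => hall z
    have h2 := Finset.card_le_card h1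
    rw [Finset.card_univ, Fintype.card_fin] at h2
    omega
  rw [SimpleGraph.connected_iff]
  refine ⟨fun x y => ?_, ⟨⟨z, hz⟩⟩⟩
  by_cases hxy : x = y
  · subst hxy
    exact Reachable.refl _
  · apply Adj.reachable
    show (⊤ : SimpleGraph (Fin n)).Adj x.1 y.1
    rw [top_adj]
    exact fun h => hxy (Subtype.ext h)

/-- `f(k) = 3k - 1` -/
theorem result (k : ℕ) (hk : 1 ≤ k) :
    IsLeast {c : ℕ | ∀ (V : Type) [Fintype V] (G : SimpleGraph V), ClawFree G → KConnected c G →
      ∀ v : Fin k → V, Function.Injective v → Separated G v} (3 * k - 1) := by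
  constructor
  · intro V _ G hcf hG v hv
    exact separated hk hG hcf v hv
  · intro c hc
    by_contra hlt
    push Not at hlt
    have hcf : ClawFree (⊤ : SimpleGraph (Fin (3 * k - 1))) := by
      intro v a b c _ _ _ hab _ _
      left
      rw [top_adj]
      exact hab
    have hle : k ≤ 3 * k - 1 := by omega
    obtain ⟨C, hC, hdis⟩ := hc (Fin (3 * k - 1)) ⊤ hcf (top_connected hlt) (Fin.castLE hle)
      (Fin.castLE_injective hle)
    -- the supports are disjoint sets of at least three vertices
    have h3 : ∀ i, 3 ≤ (C i).support.toFinset.card := by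
      intro i
      have h1 := (hC i).three_le_length
      have h2 : (C i).support.tail.toFinset ⊆ (C i).support.toFinset := by
        intro z hz
        rw [List.mem_toFinset] at hz ⊢
        exact List.mem_of_mem_tail hz
      have h3 := Finset.card_le_card h2
      rw [List.toFinset_card_of_nodup (hC i).support_nodup, List.length_tail,
        Walk.length_support] at h3
      omega
    have hsum : ∑ i : Fin k, (C i).support.toFinset.card ≤ 3 * k - 1 := by
      rw [← Finset.card_biUnion]
      · calc _ ≤ (Finset.univ : Finset (Fin (3 * k - 1))).card := Finset.card_le_univ _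
          _ = 3 * k - 1 := by simp
      · intro i _ j _ hij
        rw [Function.onFun, Finset.disjoint_left]
        intro z hz hz'
        rw [List.mem_toFinset] at hz hz'
        exact hdis i j hij z hz hz'
    have hlow : ∑ _i : Fin k, 3 ≤ ∑ i : Fin k, (C i).support.toFinset.card :=
      Finset.sum_le_sum (fun i _ => h3 i)
    simp only [Finset.sum_const, Finset.card_univ, Fintype.card_fin, smul_eq_mul] at hlow
    omega

end Pool.Agent.Results.MP_6859a2_co.ExactValue
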